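import Pool.Agent.Y16.AF.StmP

/-!
# AF-BALL: the Haar measure of small balls

The matrices of a closed subgroup `G` of `U(N)` are covered by at most `(2 K + 1) ^ (2 N ^ 2)` sets of
diameter `≤ 2 N / K` (the integer parts of `K` times the coordinates); each of them is contained in a
translate of a small ball.
-/

set_option autoImplicit false

open MeasureTheory Matrix
open scoped Matrix.Norms.Frobenius Topology
open Pool.Agent.Y16.Gluon Pool.Agent.Y16.AF

namespace Pool.Agent.Y614.AF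

variable {N : ℕ}

lemma nsq2 (A : Mt N) : ‖A‖ ^ 2 = ∑ i, ∑ j, ‖A i j‖ ^ 2 := by
  have h2 : ‖A‖ = Real.sqrt (∑ i, ∑ j, ‖A i j‖ ^ 2) := by
    rw [Matrix.frobenius_norm_def, Real.sqrt_eq_rpow]
    norm_num
  rw [h2, Real.sq_sqrt (Finset.sum_nonneg fun i _ => Finset.sum_nonneg fun j _ => sq_nonneg _)]

lemma nsq (A : Mt N) : ‖A‖ ^ 2 = (trace (Aᴴ * A)).re := by
  rw [nsq2, Matrix.trace]
  simp only [Matrix.diag_apply, Matrix.mul_apply, Matrix.conjTranspose_apply, Complex.re_sum]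
  rw [Finset.sum_comm]
  refine Finset.sum_congr rfl fun j _ => Finset.sum_congr rfl fun i _ => ?_
  rw [Complex.star_def, ← Complex.normSq_eq_conj_mul_self, Complex.ofReal_re, Complex.sq_norm]

lemma norm_umul (U A : Mt N) (hU : Uᴴ * U = 1) : ‖U * A‖ = ‖A‖ := by
  have h : ‖U * A‖ ^ 2 = ‖A‖ ^ 2 := by
    rw [nsq, nsq, conjTranspose_mul, Matrix.mul_assoc, ← Matrix.mul_assoc Uᴴ, hU, Matrix.one_mul]
  have h0 := norm_nonneg (U * A)
  have h1 := norm_nonneg A
  nlinarith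

variable {G : Subgroup (UU N)}

lemma mt_mul (g h : G) : mt (g * h) = mt g * mt h := rfl

lemma mt_unit (g : G) : (mt g)ᴴ * mt g = 1 := (Unitary.mem_iff.1 (g : UU N).2).1

lemma mt_inv_mul (g : G) : mt g⁻¹ * mt g = 1 := by
  rw [← mt_mul, inv_mul_cancel]
  rfl

lemma entry_le (g : G) (i j : Fin N) : ‖mt g i j‖ ≤ 1 :=
  entry_norm_bound_of_unitary (g : UU N).2 i j

/-- left translation -/
lemma norm_shift (g0 g : G) : ‖mt (g0⁻¹ * g) - 1‖ = ‖mt g - mt g0‖ := by
  have h : mt (g0⁻¹ * g) - 1 = mt g0⁻¹ * (mt g - mt g0) := by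
    rw [Matrix.mul_sub, mt_inv_mul, mt_mul]
  rw [h, norm_umul _ _ (mt_unit g0⁻¹)]

/-- the coordinates -/
noncomputable def cor (g : G) (x : Fin N × Fin N × Bool) : ℝ :=
  if x.2.2 then (mt g x.1 x.2.1).re else (mt g x.1 x.2.1).im

lemma cor_le (g : G) (x : Fin N × Fin N × Bool) : |cor g x| ≤ 1 := by
  unfold cor
  split_ifs
  · exact (Complex.abs_re_le_norm _).trans (entry_le g _ _)
  · exact (Complex.abs_im_le_norm _).trans (entry_le g _ _)

/-- the integer parts of the coordinates -/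
noncomputable def cod (K : ℕ) (g : G) (x : Fin N × Fin N × Bool) : ℤ := ⌊(K : ℝ) * cor g x⌋

lemma cod_mem (K : ℕ) (g : G) :
    cod K g ∈ Fintype.piFinset fun _ : Fin N × Fin N × Bool => Finset.Icc (-(K : ℤ)) K := by
  rw [Fintype.mem_piFinset]
  intro x
  have h := abs_le.1 (cor_le g x)
  have hK : (0 : ℝ) ≤ K := Nat.cast_nonneg K
  rw [Finset.mem_Icc]
  unfold cod
  constructor
  · rw [Int.le_floor]
    push_cast
    nlinarith [h.1]
  · have h1 : (K : ℝ) * cor g x ≤ K := by nlinarith [h.2]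
    have h2 : (⌊(K : ℝ) * cor g x⌋ : ℝ) ≤ (K : ℤ) := (Int.floor_le _).trans (by exact_mod_cast h1)
    exact_mod_cast h2

lemma cod_eq {K : ℕ} (hK : 0 < K) {g h : G} (hc : cod K g = cod K h)
    (x : Fin N × Fin N × Bool) : |cor g x - cor h x| ≤ 1 / K := by
  have h1 : ⌊(K : ℝ) * cor g x⌋ = ⌊(K : ℝ) * cor h x⌋ := congrFun hc x
  have h2 := Int.abs_sub_lt_one_of_floor_eq_floor h1
  have hK' : (0 : ℝ) < K := by exact_mod_cast hK
  rw [← mul_sub, abs_mul, abs_of_pos hK'] at h2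
  rw [le_div_iff₀ hK']
  linarith

lemma dist_le {K : ℕ} (hK : 0 < K) {g h : G} (hc : cod K g = cod K h) :
    ‖mt g - mt h‖ ≤ 2 * N / K := by
  have hK' : (0 : ℝ) < K := by exact_mod_cast hK
  have h0 : ∀ i j, ‖(mt g - mt h) i j‖ ^ 2 ≤ 2 / (K : ℝ) ^ 2 := by
    intro i j
    have h1 := cod_eq hK hc (i, j, true)
    have h2 := cod_eq hK hc (i, j, false)
    simp only [cor, if_true, Bool.false_eq_true, if_false] at h1 h2
    rw [Complex.sq_norm, Complex.normSq_apply, Matrix.sub_apply, Complex.sub_re, Complex.sub_im]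
    have h3 : ((mt g i j).re - (mt h i j).re) ^ 2 ≤ (1 / (K : ℝ)) ^ 2 := by
      rw [← sq_abs]
      exact pow_le_pow_left₀ (abs_nonneg _) h1 2
    have h4 : ((mt g i j).im - (mt h i j).im) ^ 2 ≤ (1 / (K : ℝ)) ^ 2 := by
      rw [← sq_abs]
      exact pow_le_pow_left₀ (abs_nonneg _) h2 2
    have h5 : (1 / (K : ℝ)) ^ 2 = 1 / (K : ℝ) ^ 2 := by rw [div_pow, one_pow]
    have h6 : 2 / (K : ℝ) ^ 2 = 1 / (K : ℝ) ^ 2 + 1 / (K : ℝ) ^ 2 := by ring
    rw [h6, ← h5]
    nlinarith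
  have h1 : ‖mt g - mt h‖ ^ 2 ≤ (2 * N / K) ^ 2 := by
    rw [nsq2]
    calc ∑ i, ∑ j, ‖(Pool.Agent.Y16.Gluon.mt g - Pool.Agent.Y16.Gluon.mt h) i j‖ ^ 2 ≤
        ∑ _i : Fin N, ∑ _j : Fin N, 2 / (K : ℝ) ^ 2 :=
          Finset.sum_le_sum fun i _ => Finset.sum_le_sum fun j _ => h0 i j
      _ = (2 * (N : ℝ) ^ 2) / (K : ℝ) ^ 2 := by
          simp only [Finset.sum_const, Finset.card_univ, Fintype.card_fin, nsmul_eq_mul]
          ring
      _ ≤ (2 * N / K) ^ 2 := by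
          rw [div_pow]
          gcongr
          nlinarith [sq_nonneg (N : ℝ)]
  exact le_of_sq_le_sq h1 (by positivity)

theorem af_ball : S_BALL := by
  intro N G _ _ _ μ _ _
  refine ⟨1 / (4 * (N : ℝ) + 5) ^ (N * (N * 2)), by positivity, N * (N * 2), fun r hr hr1 => ?_⟩
  obtain ⟨K, hKd⟩ : ∃ K : ℕ, K = ⌈(2 * (N : ℝ) + 1) / r⌉₊ := ⟨_, rfl⟩
  have hK1 : (2 * (N : ℝ) + 1) / r ≤ K := by rw [hKd]; exact Nat.le_ceil _
  have hK2 : (K : ℝ) < (2 * (N : ℝ) + 1) / r + 1 := by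
    rw [hKd]
    exact Nat.ceil_lt_add_one (by positivity)
  have hKpos : (0 : ℝ) < K := lt_of_lt_of_le (by positivity) hK1
  have hK : 0 < K := by exact_mod_cast hKpos
  set B : Set G := {g : G | ‖mt g - 1‖ ≤ r} with hB
  have hdist : 2 * (N : ℝ) / K ≤ r := by
    rw [div_le_iff₀ hKpos]
    rw [div_le_iff₀ hr] at hK1
    nlinarith
  classical
  set S : Finset (Fin N × Fin N × Bool → ℤ) :=
    Fintype.piFinset fun _ : Fin N × Fin N × Bool => Finset.Icc (-(K : ℤ)) K with hS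
  have hfib : ∀ c ∈ S, μ {g : G | cod K g = c} ≤ μ B := by
    intro c _
    rcases Set.eq_empty_or_nonempty {g : G | cod K g = c} with h | ⟨g0, hg0⟩
    · rw [h, measure_empty]
      exact zero_le
    · rw [← measure_preimage_mul μ g0⁻¹ B]
      refine measure_mono fun g hg => ?_
      show ‖mt (g0⁻¹ * g) - 1‖ ≤ r
      rw [norm_shift]
      have h1 : cod K g = cod K g0 := by
        rw [show cod K g = c from hg, show cod K g0 = c from hg0]
      exact (dist_le hK h1).trans hdist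
  have hcov : (Set.univ : Set G) ⊆ ⋃ c ∈ S, {g : G | cod K g = c} := by
    intro g _
    refine Set.mem_biUnion (x := cod K g) (cod_mem K g) rfl
  have h1 : (1 : ENNReal) ≤ S.card * μ B := by
    calc (1 : ENNReal) = μ Set.univ := (measure_univ).symm
      _ ≤ μ (⋃ c ∈ S, {g : G | cod K g = c}) := measure_mono hcov
      _ ≤ ∑ c ∈ S, μ {g : G | cod K g = c} := measure_biUnion_finset_le _ _
      _ ≤ ∑ _c ∈ S, μ B := Finset.sum_le_sum hfib
      _ = S.card * μ B := by rw [Finset.sum_const, nsmul_eq_mul]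
  have hcard : S.card = (2 * K + 1) ^ (N * (N * 2)) := by
    rw [hS, Fintype.card_piFinset]
    simp only [Int.card_Icc, Finset.prod_const, Finset.card_univ, Fintype.card_prod,
      Fintype.card_fin, Fintype.card_bool]
    congr 1
    omega
  have h2 : (1 : ℝ) ≤ (2 * (K : ℝ) + 1) ^ (N * (N * 2)) * (μ B).toReal := by
    have h3 := ENNReal.toReal_mono (ENNReal.mul_ne_top (ENNReal.natCast_ne_top _)
      (measure_ne_top μ B)) h1
    rw [ENNReal.toReal_one, ENNReal.toReal_mul, ENNReal.toReal_natCast, hcard] at h3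
    push_cast at h3
    exact h3
  have h4 : (2 * (K : ℝ) + 1) ≤ (4 * (N : ℝ) + 5) / r := by
    rw [le_div_iff₀ hr]
    have h5 : (K : ℝ) * r < (2 * (N : ℝ) + 1) + r := by
      have := mul_lt_mul_of_pos_right hK2 hr
      rw [add_mul, one_mul, div_mul_cancel₀ _ hr.ne'] at this
      exact this
    nlinarith
  have h6 : (2 * (K : ℝ) + 1) ^ (N * (N * 2)) ≤ ((4 * (N : ℝ) + 5) / r) ^ (N * (N * 2)) :=
    pow_le_pow_left₀ (by positivity) h4 _
  have h7 : (1 : ℝ) ≤ ((4 * (N : ℝ) + 5) / r) ^ (N * (N * 2)) * (μ B).toReal :=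
    h2.trans (mul_le_mul_of_nonneg_right h6 ENNReal.toReal_nonneg)
  rw [div_pow, div_mul_eq_mul_div, le_div_iff₀ (by positivity), one_mul] at h7
  rw [div_mul_eq_mul_div, one_mul, div_le_iff₀ (by positivity)]
  linarith

end Pool.Agent.Y614.AF
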